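import Mathlib

open scoped ENNReal Pointwise
open Filter Topology

namespace Pool.Agent.Results.MP_4a6971_al.TorelliNegligible

section General

variable {G : Type*} [Group G] [DecidableEq G] {X : Type*} [MulAction G X]

open Classical in
/-- number of elements `a` of the finite set `A` with `a • x0 = x` -/
noncomputable def cnt (x0 : X) (A : Finset G) (x : X) : ℝ≥0∞ :=
  ((A.filter (fun a => a • x0 = x)).card : ℝ≥0∞)

lemma cnt_mul (x0 : X) (L A : Finset G) (x : X) :
    cnt x0 (L * A) x ≤ ∑ l ∈ L, cnt x0 A (l⁻¹ • x) := by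
  classical
  unfold cnt
  have h1 : (L * A).filter (fun a => a • x0 = x) ⊆
      L.biUnion (fun l => (A.filter (fun a => a • x0 = l⁻¹ • x)).image (fun a => l * a)) := by
    intro y hy
    rw [Finset.mem_filter] at hy
    obtain ⟨hy, hx⟩ := hy
    obtain ⟨l, hl, a, ha, rfl⟩ := Finset.mem_mul.1 hy
    rw [Finset.mem_biUnion]
    refine ⟨l, hl, ?_⟩
    rw [Finset.mem_image]
    refine ⟨a, ?_, rfl⟩
    rw [Finset.mem_filter]
    refine ⟨ha, ?_⟩
    rw [← hx, mul_smul, inv_smul_smul]
  have h2 : ((L * A).filter (fun a => a • x0 = x)).card ≤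
      ∑ l ∈ L, (A.filter (fun a => a • x0 = l⁻¹ • x)).card := by
    refine (Finset.card_le_card h1).trans (Finset.card_biUnion_le.trans ?_)
    exact Finset.sum_le_sum (fun l _ => Finset.card_image_le)
  exact_mod_cast h2

/-- sum of squares -/
noncomputable def en (f : X → ℝ≥0∞) : ℝ≥0∞ := ∑' x, (f x) ^ 2

omit [DecidableEq G] in
lemma en_smul (f : X → ℝ≥0∞) (g : G) : en (fun x => f (g⁻¹ • x)) = en f := by
  unfold en
  exact (MulAction.toPerm g⁻¹).tsum_eq (fun x => (f x) ^ 2)

lemma sq_sum_le {ι : Type*} (s : Finset ι) (f : ι → ℝ≥0∞) :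
    (∑ i ∈ s, f i) ^ 2 ≤ (s.card : ℝ≥0∞) * ∑ i ∈ s, (f i) ^ 2 := by
  have h := ENNReal.rpow_sum_le_const_mul_sum_rpow s f (p := 2) (by norm_num)
  have e : (2 : ℝ) - 1 = 1 := by norm_num
  rw [e, ENNReal.rpow_one] at h
  have e2 : ∀ x : ℝ≥0∞, x ^ (2 : ℝ) = x ^ 2 := fun x => by
    rw [← ENNReal.rpow_natCast]; norm_num
  simpa [e2] using h

lemma en_sum_le {ι : Type*} (s : Finset ι) (f : ι → X → ℝ≥0∞) (E : ℝ≥0∞)
    (h : ∀ i ∈ s, en (f i) ≤ E) :
    en (fun x => ∑ i ∈ s, f i x) ≤ (s.card : ℝ≥0∞) ^ 2 * E := by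
  unfold en at *
  calc ∑' x, (∑ i ∈ s, f i x) ^ 2
      ≤ ∑' x, (s.card : ℝ≥0∞) * ∑ i ∈ s, (f i x) ^ 2 :=
        ENNReal.tsum_le_tsum (fun x => sq_sum_le s _)
    _ = (s.card : ℝ≥0∞) * ∑ i ∈ s, ∑' x, (f i x) ^ 2 := by
        rw [ENNReal.tsum_mul_left, Summable.tsum_finsetSum (fun i _ => ENNReal.summable)]
    _ ≤ (s.card : ℝ≥0∞) * ∑ i ∈ s, E := by gcongr with i hi; exact h i hi
    _ = (s.card : ℝ≥0∞) ^ 2 * E := by
        rw [Finset.sum_const, nsmul_eq_mul]; ring

lemma add3_sq (a b c : ℝ≥0∞) : (a + b + c) ^ 2 ≤ 3 * (a ^ 2 + b ^ 2 + c ^ 2) := by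
  have h := sq_sum_le (Finset.univ : Finset (Fin 3)) ![a, b, c]
  simpa [Fin.sum_univ_three] using h

lemma en_add3 (f g h : X → ℝ≥0∞) :
    en (fun x => f x + g x + h x) ≤ 3 * (en f + en g + en h) := by
  unfold en
  calc ∑' x, (f x + g x + h x) ^ 2 ≤ ∑' x, 3 * ((f x) ^ 2 + (g x) ^ 2 + (h x) ^ 2) :=
        ENNReal.tsum_le_tsum (fun x => add3_sq _ _ _)
    _ = 3 * (∑' x, (f x) ^ 2 + ∑' x, (g x) ^ 2 + ∑' x, (h x) ^ 2) := by
        rw [ENNReal.tsum_mul_left, ENNReal.tsum_add, ENNReal.tsum_add]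

lemma en_mono {f g : X → ℝ≥0∞} (h : ∀ x, f x ≤ g x) : en f ≤ en g :=
  ENNReal.tsum_le_tsum (fun x => by gcongr; exact h x)


lemma sum_indicator_sq_le {I : Type*} [Fintype I] (R : I → Set X)
    (hR : ∀ i j, i ≠ j → Disjoint (R i) (R j)) (h : I → X → ℝ≥0∞) (x : X) :
    (∑ i, (R i).indicator (h i) x) ^ 2 ≤ ∑ i, ((R i).indicator (h i) x) ^ 2 := by
  by_cases hx : ∃ i, x ∈ R i
  · obtain ⟨i, hi⟩ := hx
    have h0 : ∀ j, j ≠ i → (R j).indicator (h j) x = 0 := by
      intro j hj
      refine Set.indicator_of_notMem ?_ _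
      intro hxj
      exact Set.disjoint_left.1 (hR j i hj) hxj hi
    rw [Finset.sum_eq_single i (fun j _ hj => h0 j hj) (fun h => absurd (Finset.mem_univ i) h)]
    exact Finset.single_le_sum (f := fun i => ((R i).indicator (h i) x) ^ 2)
      (fun _ _ => zero_le) (Finset.mem_univ i)
  · have h0 : ∀ j, (R j).indicator (h j) x = 0 := by
      intro j
      exact Set.indicator_of_notMem (fun hj => hx ⟨j, hj⟩) _
    simp [h0]

lemma sum_indicator_sq_le' {I : Type*} [Fintype I] (R : I → Set X)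
    (hR : ∀ i j, i ≠ j → Disjoint (R i) (R j)) (f : X → ℝ≥0∞) (x : X) :
    ∑ i, ((R i).indicator f x) ^ 2 ≤ (f x) ^ 2 := by
  by_cases hx : ∃ i, x ∈ R i
  · obtain ⟨i, hi⟩ := hx
    have h0 : ∀ j, j ≠ i → ((R j).indicator f x) ^ 2 = 0 := by
      intro j hj
      rw [Set.indicator_of_notMem]
      · simp
      · intro hxj
        exact Set.disjoint_left.1 (hR j i hj) hxj hi
    rw [Finset.sum_eq_single i (fun j _ hj => h0 j hj) (fun h => absurd (Finset.mem_univ i) h)]
    rw [Set.indicator_of_mem hi]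
  · have h0 : ∀ j, ((R j).indicator f x) ^ 2 = 0 := by
      intro j
      rw [Set.indicator_of_notMem (fun hj => hx ⟨j, hj⟩) _]
      simp
    simp [h0]

omit [DecidableEq G] in
lemma en_good {I : Type*} [Fintype I] (c : I → G) (R : I → Set X)
    (hR : ∀ i j, i ≠ j → Disjoint (R i) (R j)) (f : X → ℝ≥0∞) :
    en (fun x => ∑ i, (R i).indicator (fun y => f ((c i)⁻¹ • y)) x) ≤
      (Fintype.card I : ℝ≥0∞) * en f := by
  calc en (fun x => ∑ i, (R i).indicator (fun y => f ((c i)⁻¹ • y)) x)
      ≤ ∑' x, ∑ i, ((R i).indicator (fun y => f ((c i)⁻¹ • y)) x) ^ 2 :=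
        ENNReal.tsum_le_tsum (fun x => sum_indicator_sq_le R hR _ x)
    _ ≤ ∑' x, ∑ i, (f ((c i)⁻¹ • x)) ^ 2 := by
        refine ENNReal.tsum_le_tsum (fun x => Finset.sum_le_sum (fun i _ => ?_))
        gcongr
        exact Set.indicator_le_self' (f := fun y => f ((c i)⁻¹ • y)) (fun _ _ => zero_le) x
    _ = ∑ i, ∑' x, (f ((c i)⁻¹ • x)) ^ 2 := by
        rw [Summable.tsum_finsetSum (fun i _ => ENNReal.summable)]
    _ = ∑ i : I, en f := by
        refine Finset.sum_congr rfl (fun i _ => ?_)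
        exact en_smul f (c i)
    _ = (Fintype.card I : ℝ≥0∞) * en f := by
        rw [Finset.sum_const, nsmul_eq_mul, Finset.card_univ]

omit [DecidableEq G] in
lemma en_bad {I : Type*} [Fintype I] (c : I → G) (R : I → Set X)
    (hR : ∀ i j, i ≠ j → Disjoint (R i) (R j)) (f : X → ℝ≥0∞) :
    en (fun x => ∑ i, (R i).indicator f ((c i)⁻¹ • x)) ≤
      (Fintype.card I : ℝ≥0∞) * en f := by
  calc en (fun x => ∑ i, (R i).indicator f ((c i)⁻¹ • x))
      ≤ ∑' x, (Fintype.card I : ℝ≥0∞) * ∑ i, ((R i).indicator f ((c i)⁻¹ • x)) ^ 2 :=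
        ENNReal.tsum_le_tsum (fun x => sq_sum_le _ _)
    _ = (Fintype.card I : ℝ≥0∞) * ∑ i, ∑' x, ((R i).indicator f ((c i)⁻¹ • x)) ^ 2 := by
        rw [ENNReal.tsum_mul_left, Summable.tsum_finsetSum (fun i _ => ENNReal.summable)]
    _ = (Fintype.card I : ℝ≥0∞) * ∑ i, ∑' x, ((R i).indicator f x) ^ 2 := by
        congr 1
        refine Finset.sum_congr rfl (fun i _ => ?_)
        exact en_smul ((R i).indicator f) (c i)
    _ = (Fintype.card I : ℝ≥0∞) * ∑' x, ∑ i, ((R i).indicator f x) ^ 2 := by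
        rw [Summable.tsum_finsetSum (fun i _ => ENNReal.summable)]
    _ ≤ (Fintype.card I : ℝ≥0∞) * en f := by
        gcongr
        exact ENNReal.tsum_le_tsum (fun x => sum_indicator_sq_le' R hR f x)

lemma cnt_union (x0 : X) (A B : Finset G) (x : X) :
    cnt x0 (A ∪ B) x ≤ cnt x0 A x + cnt x0 B x := by
  classical
  unfold cnt
  rw [Finset.filter_union]
  exact_mod_cast Finset.card_union_le _ _

lemma cnt_mul' {I : Type*} [Fintype I] (x0 : X) (c : I → G) (A : Finset G) (x : X) :
    cnt x0 ((Finset.univ.image c) * A) x ≤ ∑ i, cnt x0 A ((c i)⁻¹ • x) := by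
  classical
  unfold cnt
  have h1 : ((Finset.univ.image c) * A).filter (fun a => a • x0 = x) ⊆
      Finset.univ.biUnion
        (fun i => (A.filter (fun a => a • x0 = (c i)⁻¹ • x)).image (fun a => c i * a)) := by
    intro y hy
    rw [Finset.mem_filter] at hy
    obtain ⟨hy, hx⟩ := hy
    obtain ⟨l, hl, a, ha, rfl⟩ := Finset.mem_mul.1 hy
    obtain ⟨i, -, rfl⟩ := Finset.mem_image.1 hl
    rw [Finset.mem_biUnion]
    refine ⟨i, Finset.mem_univ i, ?_⟩
    rw [Finset.mem_image]
    refine ⟨a, ?_, rfl⟩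
    rw [Finset.mem_filter]
    refine ⟨ha, ?_⟩
    rw [← hx, mul_smul, inv_smul_smul]
  have h2 : (((Finset.univ.image c) * A).filter (fun a => a • x0 = x)).card ≤
      ∑ i, (A.filter (fun a => a • x0 = (c i)⁻¹ • x)).card := by
    refine (Finset.card_le_card h1).trans (Finset.card_biUnion_le.trans ?_)
    exact Finset.sum_le_sum (fun l _ => Finset.card_image_le)
  exact_mod_cast h2

/-- one step of the energy estimate -/
lemma en_step {I : Type*} [Fintype I] (x0 : X) (P : Finset G) (c : I → G) (o : I → I)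
    (ho : Function.Injective o) (R : I → Set X)
    (hR : ∀ i j, i ≠ j → Disjoint (R i) (R j))
    (hc : ∀ i x, x ∉ R (o i) → c i • x ∈ R i) (A : Finset G) :
    en (cnt x0 ((P ∪ Finset.univ.image c) * A)) ≤
      3 * ((P.card : ℝ≥0∞) ^ 2 + 2 * (Fintype.card I : ℝ≥0∞)) * en (cnt x0 A) := by
  have hpt : ∀ x, cnt x0 ((P ∪ Finset.univ.image c) * A) x ≤
      (∑ l ∈ P, cnt x0 A (l⁻¹ • x)) +
      (∑ i, (R i).indicator (fun y => cnt x0 A ((c i)⁻¹ • y)) x) +
      (∑ i, (R (o i)).indicator (cnt x0 A) ((c i)⁻¹ • x)) := by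
    intro x
    rw [Finset.union_mul, add_assoc]
    refine (cnt_union x0 _ _ x).trans ?_
    refine add_le_add (cnt_mul x0 P A x) ?_
    refine (cnt_mul' x0 c A x).trans ?_
    rw [← Finset.sum_add_distrib]
    refine Finset.sum_le_sum (fun i _ => ?_)
    by_cases h : (c i)⁻¹ • x ∈ R (o i)
    · rw [Set.indicator_of_mem h]
      exact le_add_self
    · have h2 := hc i _ h
      rw [smul_inv_smul] at h2
      rw [Set.indicator_of_mem h2]
      exact le_self_add
  refine (en_mono hpt).trans ((en_add3 _ _ _).trans ?_)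
  have e1 : en (fun x => ∑ l ∈ P, cnt x0 A (l⁻¹ • x)) ≤ (P.card : ℝ≥0∞) ^ 2 * en (cnt x0 A) := by
    refine en_sum_le P (fun l x => cnt x0 A (l⁻¹ • x)) _ ?_
    intro l _
    exact (en_smul (cnt x0 A) l).le
  have e2 := en_good c R hR (cnt x0 A)
  have e3 := en_bad c (fun i => R (o i)) (fun i j hij => hR _ _ (fun h => hij (ho h))) (cnt x0 A)
  calc 3 * (en (fun x => ∑ l ∈ P, cnt x0 A (l⁻¹ • x)) +
        en (fun x => ∑ i, (R i).indicator (fun y => cnt x0 A ((c i)⁻¹ • y)) x) +
        en (fun x => ∑ i, (R (o i)).indicator (cnt x0 A) ((c i)⁻¹ • x)))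
      ≤ 3 * ((P.card : ℝ≥0∞) ^ 2 * en (cnt x0 A) + (Fintype.card I : ℝ≥0∞) * en (cnt x0 A) +
        (Fintype.card I : ℝ≥0∞) * en (cnt x0 A)) := by gcongr
    _ = 3 * ((P.card : ℝ≥0∞) ^ 2 + 2 * (Fintype.card I : ℝ≥0∞)) * en (cnt x0 A) := by ring

omit [DecidableEq G] in
lemma en_one (x0 : X) : en (cnt x0 (1 : Finset G)) = 1 := by
  classical
  unfold en
  rw [tsum_eq_single x0]
  · unfold cnt
    have : (1 : Finset G).filter (fun a => a • x0 = x0) = 1 := by
      ext a; simp only [Finset.mem_filter, Finset.mem_one]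
      constructor
      · exact fun h => h.1
      · rintro rfl; simp
    rw [this]; simp
  · intro y hy
    unfold cnt
    have : (1 : Finset G).filter (fun a => a • x0 = y) = ∅ := by
      ext a; simp only [Finset.mem_filter, Finset.mem_one, Finset.notMem_empty, iff_false]
      rintro ⟨rfl, h⟩
      exact hy (by rw [← h, one_smul])
    rw [this]; simp

lemma en_pow {I : Type*} [Fintype I] (x0 : X) (P : Finset G) (c : I → G) (o : I → I)
    (ho : Function.Injective o) (R : I → Set X)
    (hR : ∀ i j, i ≠ j → Disjoint (R i) (R j))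
    (hc : ∀ i x, x ∉ R (o i) → c i • x ∈ R i) (r : ℕ) :
    en (cnt x0 ((P ∪ Finset.univ.image c) ^ r)) ≤
      (3 * ((P.card : ℝ≥0∞) ^ 2 + 2 * (Fintype.card I : ℝ≥0∞))) ^ r := by
  induction r with
  | zero => simp [en_one]
  | succ r ih =>
    rw [pow_succ' (P ∪ Finset.univ.image c), pow_succ']
    refine (en_step x0 P c o ho R hR hc _).trans ?_
    gcongr

open Classical in
/-- square of the number of stabilizing elements -/
lemma card_stab_sq {I : Type*} [Fintype I] (x0 : X) (P : Finset G) (c : I → G) (o : I → I)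
    (ho : Function.Injective o) (R : I → Set X)
    (hR : ∀ i j, i ≠ j → Disjoint (R i) (R j))
    (hc : ∀ i x, x ∉ R (o i) → c i • x ∈ R i) (r : ℕ) :
    ((((P ∪ Finset.univ.image c) ^ r).filter (fun a => a • x0 = x0)).card) ^ 2 ≤
      (3 * (P.card ^ 2 + 2 * Fintype.card I)) ^ r := by
  have h := en_pow x0 P c o ho R hR hc r
  have h2 : (cnt x0 ((P ∪ Finset.univ.image c) ^ r) x0) ^ 2 ≤
      en (cnt x0 ((P ∪ Finset.univ.image c) ^ r)) :=
    ENNReal.le_tsum (f := fun x => (cnt x0 ((P ∪ Finset.univ.image c) ^ r) x) ^ 2) x0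
  have h3 := h2.trans h
  unfold cnt at h3
  exact_mod_cast h3

/-- positive words in ping-pong elements are distinct -/
lemma card_pow_pos {n : ℕ} (x1 : X) (t : Fin n → G) (U V : Fin n → Set X)
    (hU : ∀ i j, i ≠ j → Disjoint (U i) (U j))
    (hUV : ∀ i j, Disjoint (U i) (V j))
    (ht : ∀ i x, x ∉ V i → t i • x ∈ U i)
    (hx1 : ∀ i, x1 ∉ V i) (r : ℕ) :
    ((Finset.univ.image t) ^ r).card = n ^ r ∧
      ∀ a ∈ (Finset.univ.image t) ^ r, ∀ i, a • x1 ∉ V i := by
  have htinj : Function.Injective t := by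
    intro i j hij
    by_contra hne
    have h1 := ht i x1 (hx1 i)
    have h2 := ht j x1 (hx1 j)
    rw [hij] at h1
    exact Set.disjoint_left.1 (hU i j hne) h1 h2
  induction r with
  | zero =>
    refine ⟨by simp, ?_⟩
    intro a ha i
    simp only [pow_zero, Finset.mem_one] at ha
    rw [ha, one_smul]; exact hx1 i
  | succ r ih =>
    obtain ⟨ih1, ih2⟩ := ih
    refine ⟨?_, ?_⟩
    · rw [pow_succ']
      rw [Finset.card_mul_iff.2, ih1, Finset.card_image_of_injective _ htinj, Finset.card_univ,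
        Fintype.card_fin, pow_succ']
      rintro ⟨p, a⟩ hpa ⟨q, b⟩ hqb hab
      simp only [Set.mem_prod, Finset.mem_coe] at hpa hqb
      obtain ⟨hp, ha⟩ := hpa
      obtain ⟨hq, hb⟩ := hqb
      obtain ⟨i, -, rfl⟩ := Finset.mem_image.1 hp
      obtain ⟨j, -, rfl⟩ := Finset.mem_image.1 hq
      simp only at hab
      have h1 : (t i * a) • x1 ∈ U i := by
        rw [mul_smul]; exact ht i _ (ih2 a ha i)
      have h2 : (t j * b) • x1 ∈ U j := by
        rw [mul_smul]; exact ht j _ (ih2 b hb j)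
      rw [hab] at h1
      have hij : i = j := by
        by_contra hne
        exact Set.disjoint_left.1 (hU i j hne) h1 h2
      subst hij
      have : a = b := mul_left_cancel hab
      rw [this]
    · intro a ha i
      rw [pow_succ'] at ha
      obtain ⟨l, hl, b, hb, rfl⟩ := Finset.mem_mul.1 ha
      obtain ⟨j, -, rfl⟩ := Finset.mem_image.1 hl
      have h2 : (t j * b) • x1 ∈ U j := by
        rw [mul_smul]; exact ht j _ (ih2 b hb j)
      exact Set.disjoint_left.1 (hUV j i) h2


end General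

/-- The ball of radius `r` for the word length given by the set `S` and the inverses of its
elements: all products of at most `r` factors, each of which lies in `S` or has its inverse
in `S`. -/
def ball {G : Type*} [Group G] (S : Set G) (r : ℕ) : Set G :=
  {x | ∃ l : List G, l.length ≤ r ∧ (∀ y ∈ l, y ∈ S ∨ y⁻¹ ∈ S) ∧ l.prod = x}

lemma ball_eq {G : Type*} [Group G] [DecidableEq G] (S : Finset G) (r : ℕ) :
    ball (S : Set G) r = (((insert 1 (S ∪ S⁻¹)) ^ r : Finset G) : Set G) := by
  ext x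
  constructor
  · rintro ⟨l, hl, hS, rfl⟩
    induction r generalizing l with
    | zero =>
      have : l = [] := List.length_eq_zero_iff.1 (Nat.le_zero.1 hl)
      subst this; simp
    | succ r ih =>
      cases l with
      | nil =>
        rw [Finset.mem_coe]
        exact Finset.one_mem_pow (Finset.mem_insert_self _ _)
      | cons a l =>
        rw [pow_succ', Finset.mem_coe, List.prod_cons]
        refine Finset.mul_mem_mul ?_ ?_
        · rw [Finset.mem_insert, Finset.mem_union, Finset.mem_inv']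
          rcases hS a (by simp) with h | h
          · right; left; exact_mod_cast h
          · right; right; exact_mod_cast h
        · have := ih l (by simpa using hl) (fun y hy => hS y (by simp [hy]))
          exact_mod_cast this
  · intro hx
    rw [Finset.mem_coe] at hx
    induction r generalizing x with
    | zero =>
      simp only [pow_zero, Finset.mem_one] at hx
      exact ⟨[], by simp, by simp, by simp [hx]⟩
    | succ r ih =>
      rw [pow_succ'] at hx
      obtain ⟨a, ha, b, hb, rfl⟩ := Finset.mem_mul.1 hx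
      obtain ⟨l, hl, hS, rfl⟩ := ih b hb
      rw [Finset.mem_insert, Finset.mem_union, Finset.mem_inv'] at ha
      rcases ha with rfl | h | h
      · exact ⟨l, by omega, hS, by simp⟩
      · refine ⟨a :: l, by simpa using hl, ?_, by simp⟩
        intro y hy
        rcases List.mem_cons.1 hy with rfl | hy
        · left; exact_mod_cast h
        · exact hS y hy
      · refine ⟨a :: l, by simpa using hl, ?_, by simp⟩
        intro y hy
        rcases List.mem_cons.1 hy with rfl | hy
        · right; exact_mod_cast h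
        · exact hS y hy

/-- Balls of finite sets are finite, so the cardinalities below are honest ones. -/
lemma ball_finite {G : Type*} [Group G] {S : Set G} (hS : S.Finite) (r : ℕ) :
    (ball S r).Finite := by
  classical
  have h := ball_eq hS.toFinset r
  rw [Set.Finite.coe_toFinset] at h
  rw [h]
  exact Finset.finite_toSet _

/-- Balls contain the identity. -/
lemma one_mem_ball {G : Type*} [Group G] (S : Set G) (r : ℕ) : (1 : G) ∈ ball S r :=
  ⟨[], by simp, by simp, by simp⟩

open Classical in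
theorem general_bound {G : Type*} [Group G] {X : Type*} [MulAction G X] (x0 : X)
    (t : ℕ → G) (U V : ℕ → Set X)
    (hU : ∀ i j, i ≠ j → Disjoint (U i) (U j))
    (hV : ∀ i j, i ≠ j → Disjoint (V i) (V j))
    (hUV : ∀ i j, Disjoint (U i) (V j))
    (ht : ∀ i x, x ∉ V i → t i • x ∈ U i)
    (ht' : ∀ i x, x ∉ U i → (t i)⁻¹ • x ∈ V i)
    (hx0 : ∀ i, x0 ∉ V i) (S : Finset G) (ε : ℝ) (hε : 0 < ε) :
    ∀ᶠ n : ℕ in atTop, ∀ r : ℕ,
      ((ball ((S ∪ (Finset.range n).image t : Finset G) : Set G) r ∩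
        {a | a • x0 = x0}).ncard : ℝ) ≤
      ε ^ r * ((ball ((S ∪ (Finset.range n).image t : Finset G) : Set G) r).ncard : ℝ) := by
  set P : Finset G := insert 1 (S ∪ S⁻¹) with hP
  -- choose n large
  have hlarge : ∀ᶠ n : ℕ in atTop, (3 * ((P.card : ℝ) ^ 2 + 4 * n)) ≤ (ε * n) ^ 2 := by
    have h1 : Tendsto (fun n : ℕ => ((n : ℝ))) atTop atTop := tendsto_natCast_atTop_atTop
    have h2 : ∀ᶠ x : ℝ in atTop, (3 * ((P.card : ℝ) ^ 2 + 4 * x)) ≤ (ε * x) ^ 2 := by
      filter_upwards [eventually_ge_atTop (1 : ℝ),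
        eventually_ge_atTop (3 * ((P.card : ℝ) ^ 2 + 4) / ε ^ 2)] with x hx1 hx2
      rw [div_le_iff₀ (by positivity)] at hx2
      nlinarith [mul_le_mul_of_nonneg_right hx2 (by linarith : (0:ℝ) ≤ x),
        sq_nonneg (P.card : ℝ), mul_nonneg (sq_nonneg (P.card : ℝ)) (by linarith : (0:ℝ) ≤ x - 1)]
    exact h1.eventually h2
  filter_upwards [hlarge] with n hn r
  set c : Fin n × Bool → G := fun p => if p.2 then t p.1 else (t p.1)⁻¹ with hc
  set R : Fin n × Bool → Set X := fun p => if p.2 then U p.1 else V p.1 with hRdef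
  set o : Fin n × Bool → Fin n × Bool := fun p => (p.1, !p.2) with ho
  have hoinj : Function.Injective o := by
    rintro ⟨i, a⟩ ⟨j, b⟩ h
    simp only [ho, Prod.mk.injEq] at h
    rw [h.1]
    simpa using h.2
  have hRd : ∀ p q, p ≠ q → Disjoint (R p) (R q) := by
    rintro ⟨i, a⟩ ⟨j, b⟩ hne
    have hij : a = b → (i : ℕ) ≠ j := by
      rintro rfl h
      exact hne (by rw [Fin.ext h])
    cases a <;> cases b <;> simp only [hRdef, if_true, Bool.false_eq_true, if_false]
    · exact hV _ _ (hij rfl)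
    · exact (hUV _ _).symm
    · exact hUV _ _
    · exact hU _ _ (hij rfl)
  have hcR : ∀ p x, x ∉ R (o p) → c p • x ∈ R p := by
    rintro ⟨i, a⟩ x hx
    cases a <;> simp only [hRdef, hc, ho, if_true, Bool.false_eq_true, if_false, Bool.not_true,
      Bool.not_false] at hx ⊢
    · exact ht' _ _ hx
    · exact ht _ _ hx
  have hL : insert 1 ((S ∪ (Finset.range n).image t) ∪ (S ∪ (Finset.range n).image t)⁻¹) =
      P ∪ Finset.univ.image c := by
    ext x
    simp only [hP, Finset.mem_insert, Finset.mem_union, Finset.mem_inv', Finset.mem_image,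
      Finset.mem_range, Finset.mem_univ, true_and, Prod.exists, Bool.exists_bool, hc, if_true,
      Bool.false_eq_true, if_false]
    constructor
    · rintro (h | (h | ⟨i, hi, h⟩) | (h | ⟨i, hi, h⟩))
      · left; left; exact h
      · left; right; left; exact h
      · right; exact ⟨⟨i, hi⟩, Or.inr h⟩
      · left; right; right; exact h
      · right; exact ⟨⟨i, hi⟩, Or.inl (by rw [h, inv_inv])⟩
    · rintro ((h | h | h) | ⟨i, h | h⟩)
      · left; exact h
      · right; left; left; exact h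
      · right; right; left; exact h
      · right; right; right; exact ⟨i, i.2, by rw [← h, inv_inv]⟩
      · right; left; right; exact ⟨i, i.2, h⟩
  rw [ball_eq, hL]
  have hsq := card_stab_sq x0 P c o hoinj R hRd hcR r
  have hpos := (card_pow_pos (n := n) x0 (fun i : Fin n => t i) (fun i => U i) (fun i => V i)
    (fun i j hij => hU _ _ (fun h => hij (Fin.ext h))) (fun i j => hUV _ _)
    (fun i x hx => ht _ _ hx) (fun i => hx0 _) r).1
  have hsub : (Finset.univ.image (fun i : Fin n => t i)) ^ r ⊆ (P ∪ Finset.univ.image c) ^ r := by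
    refine Finset.pow_subset_pow_left ?_
    intro x hx
    obtain ⟨i, -, rfl⟩ := Finset.mem_image.1 hx
    rw [Finset.mem_union]; right
    exact Finset.mem_image.2 ⟨(i, true), Finset.mem_univ _, by simp [hc]⟩
  have hcard : n ^ r ≤ ((P ∪ Finset.univ.image c) ^ r).card := by
    rw [← hpos]; exact Finset.card_le_card hsub
  have e1 : ((((P ∪ Finset.univ.image c) ^ r : Finset G) : Set G) ∩ {a | a • x0 = x0}) =
      ((((P ∪ Finset.univ.image c) ^ r).filter (fun a => a • x0 = x0) : Finset G) : Set G) := by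
    ext x
    rw [Set.mem_inter_iff, Finset.mem_coe, Finset.mem_coe, Finset.mem_filter]
    rfl
  rw [e1, Set.ncard_coe_finset, Set.ncard_coe_finset]
  have hI : Fintype.card (Fin n × Bool) = n * 2 := by simp
  rw [hI] at hsq
  have hsqR : ((((P ∪ Finset.univ.image c) ^ r).filter (fun a => a • x0 = x0)).card : ℝ) ^ 2 ≤
      (3 * ((P.card : ℝ) ^ 2 + 4 * n)) ^ r := by
    have h : ((((P ∪ Finset.univ.image c) ^ r).filter (fun a => a • x0 = x0)).card : ℝ) ^ 2 ≤
      (3 * ((P.card : ℝ) ^ 2 + 2 * (n * 2))) ^ r := by exact_mod_cast hsq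
    refine h.trans (le_of_eq ?_)
    ring
  have h2 : ((((P ∪ Finset.univ.image c) ^ r).filter (fun a => a • x0 = x0)).card : ℝ) ^ 2 ≤
      ((ε * n) ^ r) ^ 2 := by
    refine hsqR.trans ?_
    rw [← pow_mul, mul_comm r 2, pow_mul]
    gcongr
  have h3 : ((((P ∪ Finset.univ.image c) ^ r).filter (fun a => a • x0 = x0)).card : ℝ) ≤
      (ε * n) ^ r := by
    refine (sq_le_sq₀ (by positivity) (by positivity)).1 h2
  refine h3.trans ?_
  rw [mul_pow]
  gcongr
  exact_mod_cast hcard


theorem general_bound_set {G : Type*} [Group G] {X : Type*} [MulAction G X] (x0 : X)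
    (t : ℕ → G) (U V : ℕ → Set X)
    (hU : ∀ i j, i ≠ j → Disjoint (U i) (U j))
    (hV : ∀ i j, i ≠ j → Disjoint (V i) (V j))
    (hUV : ∀ i j, Disjoint (U i) (V j))
    (ht : ∀ i x, x ∉ V i → t i • x ∈ U i)
    (ht' : ∀ i x, x ∉ U i → (t i)⁻¹ • x ∈ V i)
    (hx0 : ∀ i, x0 ∉ V i) (S : Set G) (hS : S.Finite) (ε : ℝ) (hε : 0 < ε) :
    ∀ᶠ n : ℕ in atTop, ∀ r : ℕ,
      ((ball (S ∪ t '' Set.Iio n) r ∩ {a | a • x0 = x0}).ncard : ℝ) ≤
      ε ^ r * ((ball (S ∪ t '' Set.Iio n) r).ncard : ℝ) := by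
  classical
  filter_upwards [general_bound x0 t U V hU hV hUV ht ht' hx0 hS.toFinset ε hε] with n hn r
  have h := hn r
  rw [Finset.coe_union, Set.Finite.coe_toFinset, Finset.coe_image, Finset.coe_range] at h
  exact h

/-! ### Surface groups and the mapping class group -/

/-- The relator `[a_1,b_1] [a_2,b_2] ... [a_g,b_g]`; `Sum.inl i` stands for `a_i` and
`Sum.inr i` for `b_i`. -/
def surfaceRelator (g : ℕ) : FreeGroup (Fin g ⊕ Fin g) :=
  (List.ofFn (fun i : Fin g =>
    FreeGroup.of (Sum.inl i) * FreeGroup.of (Sum.inr i) *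
      (FreeGroup.of (Sum.inl i))⁻¹ * (FreeGroup.of (Sum.inr i))⁻¹)).prod

/-- The fundamental group of the closed oriented surface of genus `g`. -/
def SurfaceGroup (g : ℕ) : Type :=
  PresentedGroup ({surfaceRelator g} : Set (FreeGroup (Fin g ⊕ Fin g)))

instance (g : ℕ) : Group (SurfaceGroup g) :=
  instGroupPresentedGroup ({surfaceRelator g} : Set (FreeGroup (Fin g ⊕ Fin g)))

/-- The generators of the surface group. -/
def gen {g : ℕ} (j : Fin g ⊕ Fin g) : SurfaceGroup g :=
  PresentedGroup.of (rels := {surfaceRelator g}) j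

/-- Homomorphisms out of the surface group. -/
def outHom {g : ℕ} {H : Type*} [Group H] (f : Fin g ⊕ Fin g → H)
    (h : FreeGroup.lift f (surfaceRelator g) = 1) : SurfaceGroup g →* H :=
  PresentedGroup.toGroup (rels := {surfaceRelator g}) (f := f)
    (fun r hr => by rw [Set.mem_singleton_iff.1 hr]; exact h)

lemma outHom_gen {g : ℕ} {H : Type*} [Group H] (f : Fin g ⊕ Fin g → H)
    (h : FreeGroup.lift f (surfaceRelator g) = 1) (j : Fin g ⊕ Fin g) :
    outHom f h (gen j) = f j :=
  PresentedGroup.toGroup.of (rels := {surfaceRelator g}) _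

lemma surface_ext {g : ℕ} {H : Type*} [Group H] {φ ψ : SurfaceGroup g →* H}
    (h : ∀ j, φ (gen j) = ψ (gen j)) : φ = ψ :=
  PresentedGroup.ext (rels := {surfaceRelator g}) h

/-- Hom out of the surface group. -/
lemma lift_relator {g : ℕ} {H : Type*} [Group H] (f : Fin g ⊕ Fin g → H) :
    FreeGroup.lift f (surfaceRelator g) =
      (List.ofFn (fun i : Fin g => f (Sum.inl i) * f (Sum.inr i) *
      (f (Sum.inl i))⁻¹ * (f (Sum.inr i))⁻¹)).prod := by
  unfold surfaceRelator
  rw [map_list_prod, List.map_ofFn]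
  congr 2
  funext i
  simp

/-- The homology class in `H_1 = ℤ^{2g}` of an element of the surface group: the homomorphism
sending each generator to the corresponding basis vector. -/
def homologyHom (g : ℕ) : SurfaceGroup g →* Multiplicative (Fin g ⊕ Fin g → ℤ) :=
  outHom (fun j => Multiplicative.ofAdd (Pi.single j 1 : Fin g ⊕ Fin g → ℤ)) (by
      rw [lift_relator]
      refine List.prod_eq_one ?_
      intro x hx
      rw [List.mem_ofFn] at hx
      obtain ⟨i, rfl⟩ := hx
      rw [mul_comm (Multiplicative.ofAdd _) (Multiplicative.ofAdd _)]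
      group)

/-- The coordinates of the homology class. -/
def homologyClass {g : ℕ} (x : SurfaceGroup g) : Fin g ⊕ Fin g → ℤ :=
  Multiplicative.toAdd (homologyHom g x)

/-- The algebraic intersection form on `ℤ^{2g}`, with `a_i · b_i = 1`. -/
def intersectionForm {g : ℕ} (u v : Fin g ⊕ Fin g → ℤ) : ℤ :=
  ∑ i : Fin g, (u (Sum.inl i) * v (Sum.inr i) - u (Sum.inr i) * v (Sum.inl i))

/-- The automorphism `φ` of the surface group preserves the intersection form on homology. -/
def PreservesForm {g : ℕ} (φ : MulAut (SurfaceGroup g)) : Prop :=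
  ∀ x y, intersectionForm (homologyClass (φ x)) (homologyClass (φ y)) =
    intersectionForm (homologyClass x) (homologyClass y)

/-- The automorphism `φ` of the surface group acts trivially on the abelianization. -/
def ActsTrivially {g : ℕ} (φ : MulAut (SurfaceGroup g)) : Prop :=
  ∀ x : SurfaceGroup g, Abelianization.of (φ x) = Abelianization.of x

/-- Automorphisms of the surface group whose action on homology preserves the algebraic
intersection form (equivalently, the orientation-preserving ones). -/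
def orientedAut (g : ℕ) : Subgroup (MulAut (SurfaceGroup g)) where
  carrier := {φ | PreservesForm φ}
  one_mem' := fun _ _ => rfl
  mul_mem' := by
    intro φ ψ hφ hψ x y
    rw [MulAut.mul_apply, MulAut.mul_apply, hφ, hψ]
  inv_mem' := by
    intro φ hφ x y
    rw [← hφ (φ⁻¹ x) (φ⁻¹ y), MulAut.apply_inv_self, MulAut.apply_inv_self]

/-- The inner automorphisms, as a subgroup of `orientedAut g`. -/
def innerAut (g : ℕ) : Subgroup (orientedAut g) :=
  ((MulAut.conj : SurfaceGroup g →* MulAut (SurfaceGroup g)).range).subgroupOf (orientedAut g)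

instance innerAut_normal (g : ℕ) : (innerAut g).Normal := by
  refine ⟨?_⟩
  rintro ⟨φ, hφ⟩ hin ⟨ψ, hψ⟩
  rw [innerAut, Subgroup.mem_subgroupOf] at hin ⊢
  obtain ⟨x, hx⟩ := hin
  refine ⟨ψ x, ?_⟩
  simp only at hx
  ext y
  simp only [Subgroup.coe_mul, InvMemClass.coe_inv, MulAut.mul_apply, ← hx, MulAut.conj_apply,
    map_mul, map_inv, MulAut.apply_inv_self]

/-- The mapping class group `Mod_g` of the closed oriented surface of genus `g`, as the group of
orientation-preserving outer automorphisms of its fundamental group. -/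
def Mod (g : ℕ) : Type := orientedAut g ⧸ innerAut g

instance (g : ℕ) : Group (Mod g) := QuotientGroup.Quotient.group (innerAut g)

/-- The mapping class of an automorphism. -/
def toMod {g : ℕ} (φ : orientedAut g) : Mod g := QuotientGroup.mk φ

/-- The Torelli group: the mapping classes acting trivially on the abelianization of the
fundamental group. -/
def torelli (g : ℕ) : Subgroup (Mod g) where
  carrier := {m | ∃ φ : orientedAut g, toMod φ = m ∧ ActsTrivially φ.1}
  one_mem' := ⟨1, rfl, fun _ => rfl⟩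
  mul_mem' := by
    rintro _ _ ⟨φ, rfl, hφ⟩ ⟨ψ, rfl, hψ⟩
    exact ⟨φ * ψ, rfl, fun x => by rw [Subgroup.coe_mul, MulAut.mul_apply, hφ, hψ]⟩
  inv_mem' := by
    rintro _ ⟨φ, rfl, hφ⟩
    refine ⟨φ⁻¹, rfl, fun x => ?_⟩
    rw [← hφ, Subgroup.coe_inv, MulAut.apply_inv_self]


/-! ### Explicit automorphisms -/

section Twists

variable {g : ℕ}

lemma relator_one : FreeGroup.lift (gen (g := g)) (surfaceRelator g) = 1 := by
  have h : FreeGroup.lift (PresentedGroup.of (rels := {surfaceRelator g})) =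
      PresentedGroup.mk {surfaceRelator g} := by
    ext x; rfl
  have h2 : FreeGroup.lift (PresentedGroup.of (rels := {surfaceRelator g}))
      (surfaceRelator g) = 1 := by
    rw [h]
    exact PresentedGroup.one_of_mem (Set.mem_singleton _)
  exact h2

lemma lift_eq_one (f : Fin g ⊕ Fin g → SurfaceGroup g)
    (hf : ∀ i : Fin g, f (Sum.inl i) * f (Sum.inr i) * (f (Sum.inl i))⁻¹ * (f (Sum.inr i))⁻¹ =
      gen (Sum.inl i) * gen (Sum.inr i) *
      (gen (Sum.inl i))⁻¹ * (gen (Sum.inr i))⁻¹) :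
    FreeGroup.lift f (surfaceRelator g) = 1 := by
  rw [← relator_one, lift_relator, lift_relator]
  congr 2
  funext i
  exact hf i

/-- `b ↦ b a^k` -/
def twA (i0 : Fin g) (k : ℤ) : SurfaceGroup g →* SurfaceGroup g :=
  outHom (fun j => if j = Sum.inr i0 then gen (Sum.inr i0) * (gen (Sum.inl i0)) ^ k
      else gen j) (lift_eq_one _ (by
      intro i
      by_cases h : i = i0
      · subst h
        simp only [reduceCtorEq, if_false, if_true]
        group
      · have h1 : (Sum.inr i : Fin g ⊕ Fin g) ≠ Sum.inr i0 := fun e => h (Sum.inr.inj e)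
        simp only [reduceCtorEq, if_false, if_neg h1]))

/-- `a ↦ a b^k` -/
def twB (i0 : Fin g) (k : ℤ) : SurfaceGroup g →* SurfaceGroup g :=
  outHom (fun j => if j = Sum.inl i0 then gen (Sum.inl i0) * (gen (Sum.inr i0)) ^ k
      else gen j) (lift_eq_one _ (by
      intro i
      by_cases h : i = i0
      · subst h
        simp only [reduceCtorEq, if_false, if_true]
        group
      · have h1 : (Sum.inl i : Fin g ⊕ Fin g) ≠ Sum.inl i0 := fun e => h (Sum.inl.inj e)
        simp only [reduceCtorEq, if_false, if_neg h1]))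

lemma twA_of (i0 : Fin g) (k : ℤ) (j : Fin g ⊕ Fin g) :
    twA i0 k (gen j) = if j = Sum.inr i0 then
      gen (Sum.inr i0) * (gen (Sum.inl i0)) ^ k
      else gen j :=
  outHom_gen _ _ _

lemma twB_of (i0 : Fin g) (k : ℤ) (j : Fin g ⊕ Fin g) :
    twB i0 k (gen j) = if j = Sum.inl i0 then
      gen (Sum.inl i0) * (gen (Sum.inr i0)) ^ k
      else gen j :=
  outHom_gen _ _ _

lemma twA_comp (i0 : Fin g) (k : ℤ) : (twA i0 k).comp (twA i0 (-k)) = MonoidHom.id _ := by
  refine surface_ext ?_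
  intro j
  rw [MonoidHom.comp_apply, twA_of, MonoidHom.id_apply]
  by_cases h : j = Sum.inr i0
  · rw [if_pos h, map_mul, map_zpow, twA_of, twA_of, if_pos rfl, if_neg (by simp), h]
    group
  · rw [if_neg h, twA_of, if_neg h]

lemma twB_comp (i0 : Fin g) (k : ℤ) : (twB i0 k).comp (twB i0 (-k)) = MonoidHom.id _ := by
  refine surface_ext ?_
  intro j
  rw [MonoidHom.comp_apply, twB_of, MonoidHom.id_apply]
  by_cases h : j = Sum.inl i0
  · rw [if_pos h, map_mul, map_zpow, twB_of, twB_of, if_pos rfl, if_neg (by simp), h]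
    group
  · rw [if_neg h, twB_of, if_neg h]

/-- `b ↦ b a^k` as an automorphism -/
def autA (i0 : Fin g) (k : ℤ) : MulAut (SurfaceGroup g) :=
  MonoidHom.toMulEquiv (twA i0 k) (twA i0 (-k))
    (by simpa using twA_comp i0 (-k)) (twA_comp i0 k)

/-- `a ↦ a b^k` as an automorphism -/
def autB (i0 : Fin g) (k : ℤ) : MulAut (SurfaceGroup g) :=
  MonoidHom.toMulEquiv (twB i0 k) (twB i0 (-k))
    (by simpa using twB_comp i0 (-k)) (twB_comp i0 k)

lemma homologyClass_mul (x y : SurfaceGroup g) :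
    homologyClass (x * y) = homologyClass x + homologyClass y := by
  unfold homologyClass
  rw [map_mul, toAdd_mul]

lemma homologyClass_of (j : Fin g ⊕ Fin g) :
    homologyClass (gen j : SurfaceGroup g) = Pi.single j 1 := by
  unfold homologyClass homologyHom
  rw [outHom_gen]
  rfl

lemma homologyClass_zpow (x : SurfaceGroup g) (k : ℤ) :
    homologyClass (x ^ k) = k • homologyClass x := by
  unfold homologyClass
  rw [map_zpow, toAdd_zpow]

/-- two additive-type functions agreeing on generators agree -/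
lemma hom_ext_class {F : SurfaceGroup g → Fin g ⊕ Fin g → ℤ}
    {F' : SurfaceGroup g → Fin g ⊕ Fin g → ℤ}
    (h : ∀ x y, F (x * y) = F x + F y) (h' : ∀ x y, F' (x * y) = F' x + F' y)
    (hof : ∀ j, F (gen j) = F' (gen j)) (x : SurfaceGroup g) :
    F x = F' x := by
  let Φ : SurfaceGroup g →* Multiplicative (Fin g ⊕ Fin g → ℤ) :=
    MonoidHom.mk' (fun x => Multiplicative.ofAdd (F x)) (fun x y => by rw [h]; rfl)
  let Φ' : SurfaceGroup g →* Multiplicative (Fin g ⊕ Fin g → ℤ) :=
    MonoidHom.mk' (fun x => Multiplicative.ofAdd (F' x)) (fun x y => by rw [h']; rfl)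
  have : Φ = Φ' := by
    refine surface_ext ?_
    intro j
    change Multiplicative.ofAdd (F _) = Multiplicative.ofAdd (F' _)
    rw [hof]
  exact Multiplicative.ofAdd.injective (DFunLike.congr_fun this x)

/-- action on homology of `autA` -/
lemma homologyClass_autA (i0 : Fin g) (k : ℤ) (x : SurfaceGroup g) :
    homologyClass (autA i0 k x) =
      homologyClass x + (k * homologyClass x (Sum.inr i0)) • Pi.single (Sum.inl i0) 1 := by
  refine hom_ext_class (F := fun x => homologyClass (autA i0 k x))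
    (F' := fun x => homologyClass x + (k * homologyClass x (Sum.inr i0)) •
      Pi.single (Sum.inl i0) 1) ?_ ?_ ?_ x
  · intro x y
    simp only [map_mul, homologyClass_mul]
  · intro x y
    simp only [homologyClass_mul, Pi.add_apply, mul_add, add_smul]
    abel
  · intro j
    change homologyClass (twA i0 k (gen j)) = _
    rw [twA_of]
    by_cases h : j = Sum.inr i0
    · subst h
      rw [if_pos rfl]
      simp only [homologyClass_mul, homologyClass_zpow, homologyClass_of]
      simp
    · rw [if_neg h, homologyClass_of]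
      simp [Ne.symm h]

/-- action on homology of `autB` -/
lemma homologyClass_autB (i0 : Fin g) (k : ℤ) (x : SurfaceGroup g) :
    homologyClass (autB i0 k x) =
      homologyClass x + (k * homologyClass x (Sum.inl i0)) • Pi.single (Sum.inr i0) 1 := by
  refine hom_ext_class (F := fun x => homologyClass (autB i0 k x))
    (F' := fun x => homologyClass x + (k * homologyClass x (Sum.inl i0)) •
      Pi.single (Sum.inr i0) 1) ?_ ?_ ?_ x
  · intro x y
    simp only [map_mul, homologyClass_mul]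
  · intro x y
    simp only [homologyClass_mul, Pi.add_apply, mul_add, add_smul]
    abel
  · intro j
    change homologyClass (twB i0 k (gen j)) = _
    rw [twB_of]
    by_cases h : j = Sum.inl i0
    · subst h
      rw [if_pos rfl]
      simp only [homologyClass_mul, homologyClass_zpow, homologyClass_of]
      simp
    · rw [if_neg h, homologyClass_of]
      simp [Ne.symm h]

lemma autA_mem (i0 : Fin g) (k : ℤ) : autA i0 k ∈ orientedAut g := by
  intro x y
  rw [homologyClass_autA, homologyClass_autA]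
  unfold intersectionForm
  refine Finset.sum_congr rfl (fun i _ => ?_)
  by_cases h : i = i0
  · subst h
    simp
    ring
  · simp [h]

lemma autB_mem (i0 : Fin g) (k : ℤ) : autB i0 k ∈ orientedAut g := by
  intro x y
  rw [homologyClass_autB, homologyClass_autB]
  unfold intersectionForm
  refine Finset.sum_congr rfl (fun i _ => ?_)
  by_cases h : i = i0
  · subst h
    simp
    ring
  · simp [h]

/-- the automorphisms `A^i B^5 A^{-i}` -/
def tau (i0 : Fin g) (i : ℕ) : orientedAut g :=
  ⟨autA i0 i, autA_mem i0 i⟩ * ⟨autB i0 5, autB_mem i0 5⟩ * ⟨autA i0 (-i), autA_mem i0 (-i)⟩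

lemma homology_tau (i0 : Fin g) (i : ℕ) (x : SurfaceGroup g) :
    homologyClass ((tau i0 i : MulAut (SurfaceGroup g)) x) (Sum.inl i0) =
      homologyClass x (Sum.inl i0) +
        i * (5 * (homologyClass x (Sum.inl i0) - i * homologyClass x (Sum.inr i0))) ∧
    homologyClass ((tau i0 i : MulAut (SurfaceGroup g)) x) (Sum.inr i0) =
      homologyClass x (Sum.inr i0) +
        5 * (homologyClass x (Sum.inl i0) - i * homologyClass x (Sum.inr i0)) := by
  have e : (tau i0 i : MulAut (SurfaceGroup g)) x =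
      autA i0 i (autB i0 5 (autA i0 (-i) x)) := rfl
  rw [e]
  constructor
  · simp only [homologyClass_autA, homologyClass_autB, Pi.add_apply, Pi.smul_apply,
      Pi.single_apply, smul_eq_mul]
    simp
    ring
  · simp only [homologyClass_autA, homologyClass_autB, Pi.add_apply, Pi.smul_apply,
      Pi.single_apply, smul_eq_mul]
    simp
    ring

end Twists


/-! ### The action on `Mod_g / Torelli` -/

section Cosets

variable {g : ℕ}

lemma homologyClass_congr (φ : MulAut (SurfaceGroup g)) {x y : SurfaceGroup g}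
    (h : Abelianization.of x = Abelianization.of y) :
    homologyClass (φ x) = homologyClass (φ y) := by
  have key : ∀ z : SurfaceGroup g, homologyHom g (φ z) =
      Abelianization.lift ((homologyHom g).comp φ.toMonoidHom) (Abelianization.of z) := by
    intro z
    rw [Abelianization.lift_apply_of]
    rfl
  unfold homologyClass
  rw [key, key, h]

/-- the coset space -/
abbrev Cos (g : ℕ) : Type := Mod g ⧸ torelli g

/-- the coset of an automorphism -/
def cosMk (φ : orientedAut g) : Cos g := QuotientGroup.mk (toMod φ)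

lemma cosMk_surj (x : Cos g) : ∃ φ : orientedAut g, cosMk φ = x := by
  obtain ⟨m, rfl⟩ := QuotientGroup.mk_surjective x
  obtain ⟨φ, rfl⟩ := QuotientGroup.mk_surjective m
  exact ⟨φ, rfl⟩

lemma cosMk_eq {φ ψ : orientedAut g} (h : cosMk φ = cosMk ψ) (x : SurfaceGroup g) :
    homologyClass ((φ : MulAut (SurfaceGroup g)) x) =
      homologyClass ((ψ : MulAut (SurfaceGroup g)) x) := by
  unfold cosMk at h
  rw [QuotientGroup.eq] at h
  obtain ⟨χ, hχ, htriv⟩ := h
  have hχ' : (QuotientGroup.mk χ : orientedAut g ⧸ innerAut g) =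
      QuotientGroup.mk (φ⁻¹ * ψ) := hχ
  rw [QuotientGroup.eq, innerAut, Subgroup.mem_subgroupOf] at hχ'
  obtain ⟨z, hz⟩ := hχ'
  have hψ : (ψ : MulAut (SurfaceGroup g)) =
      (φ : MulAut (SurfaceGroup g)) * χ * MulAut.conj z := by
    rw [hz]
    simp only [Subgroup.coe_mul, InvMemClass.coe_inv]
    group
  rw [hψ, MulAut.mul_apply, MulAut.mul_apply]
  refine (homologyClass_congr _ ?_)
  rw [htriv, MulAut.conj_apply]
  simp [mul_comm]

/-- representative -/
noncomputable def rep (x : Cos g) : orientedAut g := (cosMk_surj x).choose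

lemma cosMk_rep (x : Cos g) : cosMk (rep x) = x := (cosMk_surj x).choose_spec

/-- the `(a_1, b_1)`-part of the image of the `j`-th generator -/
noncomputable def col (i0 : Fin g) (x : Cos g) (j : Fin g ⊕ Fin g) : ℤ × ℤ :=
  (homologyClass ((rep x : MulAut (SurfaceGroup g)) (gen j)) (Sum.inl i0),
   homologyClass ((rep x : MulAut (SurfaceGroup g)) (gen j)) (Sum.inr i0))

lemma col_cosMk (i0 : Fin g) (φ : orientedAut g) (j : Fin g ⊕ Fin g) :
    col i0 (cosMk φ) j =
  (homologyClass ((φ : MulAut (SurfaceGroup g)) (gen j)) (Sum.inl i0),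
   homologyClass ((φ : MulAut (SurfaceGroup g)) (gen j)) (Sum.inr i0)) := by
  unfold col
  rw [cosMk_eq (cosMk_rep (cosMk φ))]

/-- the linear map on the plane -/
def lin (i : ℕ) (p : ℤ × ℤ) : ℤ × ℤ :=
  (p.1 + i * (5 * (p.1 - i * p.2)), p.2 + 5 * (p.1 - i * p.2))

lemma col_smul (i0 : Fin g) (i : ℕ) (x : Cos g) (j : Fin g ⊕ Fin g) :
    col i0 (toMod (tau i0 i) • x) j = lin i (col i0 x j) := by
  obtain ⟨φ, rfl⟩ := cosMk_surj x
  have e : toMod (tau i0 i) • cosMk φ = cosMk (tau i0 i * φ) := rfl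
  rw [e, col_cosMk, col_cosMk, Subgroup.coe_mul, MulAut.mul_apply]
  unfold lin
  have h := homology_tau i0 i ((φ : MulAut (SurfaceGroup g)) (gen j))
  rw [h.1, h.2]

lemma lin_eq_zero {i : ℕ} {p : ℤ × ℤ} : lin i p = 0 ↔ p = 0 := by
  obtain ⟨x, y⟩ := p
  unfold lin
  simp only [Prod.mk_eq_zero]
  constructor
  · rintro ⟨h1, h2⟩
    have h3 : x - i * y = 0 := by linear_combination h1 - i * h2
    rw [h3] at h1 h2
    constructor
    · linarith
    · linarith
  · rintro ⟨rfl, rfl⟩
    simp

lemma exists_col_ne_zero (i0 : Fin g) (x : Cos g) : {j | col i0 x j ≠ 0}.Nonempty := by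
  by_contra hne
  rw [Set.not_nonempty_iff_eq_empty] at hne
  have h0 : ∀ j, homologyClass ((rep x : MulAut (SurfaceGroup g)) (gen j))
      (Sum.inl i0) = 0 := by
    intro j
    by_contra hj
    have : j ∈ {j | col i0 x j ≠ 0} := by
      intro h
      exact hj (congrArg Prod.fst h)
    rw [hne] at this
    exact this
  have h1 : ∀ y, (fun y : SurfaceGroup g =>
      (Pi.single (Sum.inl i0) (homologyClass ((rep x : MulAut (SurfaceGroup g)) y) (Sum.inl i0)) :
        Fin g ⊕ Fin g → ℤ)) y = (fun _ => 0) y := by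
    refine hom_ext_class ?_ ?_ ?_
    · intro y z
      rw [map_mul, homologyClass_mul, Pi.add_apply, Pi.single_add]
    · intro y z
      simp
    · intro j
      simp only [h0 j]
      simp
  have h2 := h1 ((rep x : MulAut (SurfaceGroup g))⁻¹ (gen (Sum.inl i0)))
  simp only [MulAut.apply_inv_self, homologyClass_of] at h2
  simp at h2

open Classical in
/-- choice of an element of a nonempty set of indices -/
noncomputable def pick (i0 : Fin g) (A : Set (Fin g ⊕ Fin g)) : Fin g ⊕ Fin g :=
  if h : A.Nonempty then h.some else Sum.inl i0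

/-- the vector attached to a coset -/
noncomputable def vv (i0 : Fin g) (x : Cos g) : ℤ × ℤ :=
  col i0 x (pick i0 {j | col i0 x j ≠ 0})

lemma vv_ne_zero (i0 : Fin g) (x : Cos g) : vv i0 x ≠ 0 := by
  unfold vv pick
  rw [dif_pos (exists_col_ne_zero i0 x)]
  exact (exists_col_ne_zero i0 x).some_mem

lemma vv_smul (i0 : Fin g) (i : ℕ) (x : Cos g) :
    vv i0 (toMod (tau i0 i) • x) = lin i (vv i0 x) := by
  unfold vv
  rw [col_smul]
  congr 3
  ext j
  simp only [Set.mem_ofPred_eq, col_smul, ne_eq, lin_eq_zero]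

/-- attracting sets -/
def UU (i0 : Fin g) (i : ℕ) : Set (Cos g) :=
  {x | 5 * ((vv i0 x).1 - i * (vv i0 x).2) ^ 2 ≤
    2 * (vv i0 x).2 * ((vv i0 x).1 - i * (vv i0 x).2)}

/-- repelling sets -/
def VV (i0 : Fin g) (i : ℕ) : Set (Cos g) :=
  {x | 2 * (vv i0 x).2 * ((vv i0 x).1 - i * (vv i0 x).2) <
    -(5 * ((vv i0 x).1 - i * (vv i0 x).2) ^ 2)}

lemma plane_bound {u y : ℤ} (h : 5 * u ^ 2 ≤ |2 * y * u|) : 5 * |u| ≤ 2 * |y| := by
  rcases eq_or_ne u 0 with rfl | hu
  · simp
  · have hu' : 0 < |u| := abs_pos.2 hu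
    rw [abs_mul, abs_mul, ← sq_abs] at h
    have h2 : |(2 : ℤ)| = 2 := rfl
    rw [h2] at h
    nlinarith

lemma plane_disjoint {i j : ℕ} (hij : i ≠ j) {x y : ℤ} (hne : (x, y) ≠ (0 : ℤ × ℤ))
    (h1 : 5 * (x - i * y) ^ 2 ≤ |2 * y * (x - i * y)|)
    (h2 : 5 * (x - j * y) ^ 2 ≤ |2 * y * (x - j * y)|) : False := by
  have b1 := plane_bound h1
  have b2 := plane_bound h2
  have hd : (1 : ℤ) ≤ |(i : ℤ) - j| := by
    apply Int.one_le_abs
    intro h
    exact hij (by exact_mod_cast (sub_eq_zero.1 h))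
  have e : ((i : ℤ) - j) * y = (x - j * y) - (x - i * y) := by ring
  have h3 : |((i : ℤ) - j)| * |y| ≤ |x - j * y| + |x - i * y| := by
    rw [← abs_mul, e]
    exact abs_sub _ _
  have h4 : |y| ≤ |((i : ℤ) - j)| * |y| := le_mul_of_one_le_left (abs_nonneg y) hd
  have hy : y = 0 := by
    have : |y| ≤ 0 := by
      by_contra hpos
      push Not at hpos
      linarith
    exact abs_eq_zero.1 (le_antisymm this (abs_nonneg y))
  subst hy
  have hx : x = 0 := by
    have h5 : 5 * |x| ≤ 0 := by simpa using b1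
    have h6 := abs_nonneg x
    exact abs_eq_zero.1 (le_antisymm (by linarith) h6)
  exact hne (by rw [hx]; rfl)

lemma UU_abs {i0 : Fin g} {i : ℕ} {x : Cos g} (h : x ∈ UU i0 i) :
    5 * ((vv i0 x).1 - i * (vv i0 x).2) ^ 2 ≤
      |2 * (vv i0 x).2 * ((vv i0 x).1 - i * (vv i0 x).2)| :=
  le_trans h (le_abs_self _)

lemma VV_abs {i0 : Fin g} {i : ℕ} {x : Cos g} (h : x ∈ VV i0 i) :
    5 * ((vv i0 x).1 - i * (vv i0 x).2) ^ 2 ≤
      |2 * (vv i0 x).2 * ((vv i0 x).1 - i * (vv i0 x).2)| := by
  have h' : 2 * (vv i0 x).2 * ((vv i0 x).1 - i * (vv i0 x).2) <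
    -(5 * ((vv i0 x).1 - i * (vv i0 x).2) ^ 2) := h
  have := neg_abs_le (2 * (vv i0 x).2 * ((vv i0 x).1 - i * (vv i0 x).2))
  linarith

end Cosets


/-- For the closed oriented surface of genus `g`, there is one sequence `t 0, t 1, ...` of
mapping classes such that for every finite set `S` of mapping classes and every `ε > 0`, for all
large `n`, in the word length of `S ∪ {t 0, ..., t (n-1)}` the ball of radius `r` contains at
most `ε ^ r` times as many elements of the Torelli group as elements of `Mod_g`,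
for every `r`. -/
theorem result (g : ℕ) (hg : 1 ≤ g) :
    ∃ t : ℕ → Mod g, ∀ S : Set (Mod g), S.Finite → ∀ ε : ℝ, 0 < ε →
      ∀ᶠ n : ℕ in atTop, ∀ r : ℕ,
        ((ball (S ∪ t '' Set.Iio n) r ∩ (torelli g : Set (Mod g))).ncard : ℝ) ≤
          ε ^ r * ((ball (S ∪ t '' Set.Iio n) r).ncard : ℝ) := by
  let i0 : Fin g := ⟨0, hg⟩
  refine ⟨fun i => toMod (tau i0 i), ?_⟩
  intro S hS ε hε
  have hpair : ∀ x : Cos g, ((vv i0 x).1, (vv i0 x).2) ≠ (0 : ℤ × ℤ) := fun x => vv_ne_zero i0 x
  have main := general_bound_set (X := Cos g) (cosMk 1)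
    (fun i => toMod (tau i0 i)) (UU i0) (VV i0) ?_ ?_ ?_ ?_ ?_ ?_ S hS ε hε
  · have e2 : {a : Mod g | a • (cosMk 1 : Cos g) = cosMk 1} = (torelli g : Set (Mod g)) := by
      ext a
      have : a • (cosMk 1 : Cos g) = QuotientGroup.mk (a * 1) := rfl
      change a • (cosMk 1 : Cos g) = cosMk 1 ↔ _
      rw [this, mul_one]
      have h1 : (cosMk 1 : Cos g) = QuotientGroup.mk (1 : Mod g) := rfl
      rw [h1, eq_comm, QuotientGroup.eq, inv_one, one_mul, SetLike.mem_coe]
    rw [e2] at main
    exact main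
  · intro i j hij
    rw [Set.disjoint_left]
    intro x hx hx'
    exact plane_disjoint hij (hpair x) (UU_abs hx) (UU_abs hx')
  · intro i j hij
    rw [Set.disjoint_left]
    intro x hx hx'
    exact plane_disjoint hij (hpair x) (VV_abs hx) (VV_abs hx')
  · intro i j
    rw [Set.disjoint_left]
    intro x hx hx'
    by_cases hij : i = j
    · subst hij
      have h1 : 5 * ((vv i0 x).1 - i * (vv i0 x).2) ^ 2 ≤
        2 * (vv i0 x).2 * ((vv i0 x).1 - i * (vv i0 x).2) := hx
      have h2 : 2 * (vv i0 x).2 * ((vv i0 x).1 - i * (vv i0 x).2) <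
        -(5 * ((vv i0 x).1 - i * (vv i0 x).2) ^ 2) := hx'
      nlinarith [sq_nonneg ((vv i0 x).1 - i * (vv i0 x).2)]
    · exact plane_disjoint hij (hpair x) (UU_abs hx) (VV_abs hx')
  · intro i x hx
    have h1 : ¬ (2 * (vv i0 x).2 * ((vv i0 x).1 - i * (vv i0 x).2) <
        -(5 * ((vv i0 x).1 - i * (vv i0 x).2) ^ 2)) := hx
    change 5 * ((vv i0 _).1 - i * (vv i0 _).2) ^ 2 ≤
      2 * (vv i0 _).2 * ((vv i0 _).1 - i * (vv i0 _).2)
    rw [vv_smul]
    unfold lin
    simp only
    nlinarith [sq_nonneg ((vv i0 x).1 - i * (vv i0 x).2)]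
  · intro i x hx
    set z : Cos g := (toMod (tau i0 i))⁻¹ • x with hz
    have hxz : x = toMod (tau i0 i) • z := by rw [hz, smul_inv_smul]
    have h1 : ¬ (5 * ((vv i0 x).1 - i * (vv i0 x).2) ^ 2 ≤
      2 * (vv i0 x).2 * ((vv i0 x).1 - i * (vv i0 x).2)) := hx
    rw [hxz, vv_smul] at h1
    unfold lin at h1
    simp only at h1
    change 2 * (vv i0 z).2 * ((vv i0 z).1 - i * (vv i0 z).2) <
      -(5 * ((vv i0 z).1 - i * (vv i0 z).2) ^ 2)
    nlinarith [sq_nonneg ((vv i0 z).1 - i * (vv i0 z).2)]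
  · intro i hx
    have hcol : ∀ j, col i0 (cosMk 1) j =
        ((Pi.single j 1 : Fin g ⊕ Fin g → ℤ) (Sum.inl i0),
          (Pi.single j 1 : Fin g ⊕ Fin g → ℤ) (Sum.inr i0)) := by
      intro j
      rw [col_cosMk, OneMemClass.coe_one, MulAut.one_apply, homologyClass_of]
    have hv : vv i0 (cosMk 1) = (1, 0) ∨ vv i0 (cosMk 1) = (0, 1) := by
      have hne := vv_ne_zero i0 (cosMk 1)
      unfold vv at hne ⊢
      rw [hcol] at hne ⊢
      by_cases h1 : (Sum.inl i0 : Fin g ⊕ Fin g) = pick i0 {j | col i0 (cosMk 1) j ≠ 0}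
      · left
        rw [← h1]
        simp
      · by_cases h2 : (Sum.inr i0 : Fin g ⊕ Fin g) = pick i0 {j | col i0 (cosMk 1) j ≠ 0}
        · right
          rw [← h2]
          simp
        · exfalso
          apply hne
          rw [Pi.single_eq_of_ne h1, Pi.single_eq_of_ne h2]
          rfl
    have h2 : 2 * (vv i0 (cosMk 1)).2 * ((vv i0 (cosMk 1)).1 - i * (vv i0 (cosMk 1)).2) <
        -(5 * ((vv i0 (cosMk 1)).1 - i * (vv i0 (cosMk 1)).2) ^ 2) := hx
    rcases hv with hv | hv
    · rw [hv] at h2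
      simp at h2
    · rw [hv] at h2
      simp only [zero_sub, mul_one] at h2
      rcases Nat.eq_zero_or_pos i with h0 | h0
      · subst h0; simp at h2
      · have : (1 : ℤ) ≤ i := by exact_mod_cast h0
        nlinarith

end Pool.Agent.Results.MP_4a6971_al.TorelliNegligible
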